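import Pool.Agent.N733.TG.K
import Pool.Agent.Y854.AB.Count

/-!
# `T(a, b, c)` is negative for all the abc-triples with a member near functions of the values of multiplicative functions

Let `g` be a positive multiplicative function of at most polynomial growth such that `g p ≤ M p` for the large primes `p`,
with different values at different large primes; for example Euler's function or the sum of the divisors. Let `α > 0`,
`1 ≤ d < 28 / 15` and `θ < 1 - 15 d / 28`. For every `U`, for all `m ≤ N` but `N / (log N)^U`, EVERY abc-triple with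
`|c - α g(m)^d| ≤ g(m)^θ` has `T(a, b, c) < 0`, that is `rad(abc) > c`. More generally `T(a, b, c) < - η √(log c) - K / √(log c)`
for every `0 ≤ η < 7 / 9` and every `K`, that is `rad(abc) > e^K c^(1 + η)`, when `15 / 28` is replaced by an explicit
exponent `f (η) < 1`. The same holds for the triples with a member `n` in the window and `c ≤ n ^ A`, with `A f(η)` instead
of `f (η)`. More generally `G (g m)` takes the place of `α g(m)^d`, where `G` is any function with steps bounded below by a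
positive constant and growth at most `v^d`. The values of `g` are in general taken with very large multiplicities, and so this
does not follow from the size of the exceptional set.

Its size is bounded by the count used in the starting file `SequenceMembers` of this problem (`Y854.AB.Count`).
-/

set_option autoImplicit false

namespace Pool.Agent.Results.MP_4ab349_nt.MultiplicativeValues

open Finset
open Pool.Agent.N733.TG (LM Expanding lm_totient lm_sigma keep_win_nat expanding_pow)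

/-- the product of the primes dividing `n` -/
def rad (n : ℕ) : ℕ := ∏ p ∈ n.primeFactors, p

/-- `T(a, b, c) = log (c / rad(abc)) / √(log c)` -/
noncomputable def T (a b c : ℕ) : ℝ :=
  Real.log ((c : ℝ) / (rad (a * b * c) : ℝ)) / Real.sqrt (Real.log c)

/-- increasing from `15 / 28` for `η = 0` to `1` for `η = 7 / 9`: equal to `5 (10 η + 9) / 84` for `η ≤ 1 / 2` and to
`(9 η + 8) / 15` for `η > 1 / 2` -/
noncomputable def f (η : ℝ) : ℝ := if η ≤ 1 / 2 then 5 * (10 * η + 9) / 84 else (9 * η + 8) / 15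

/-- every abc-triple `(a, b, a + b)` with `a + b ≤ n ^ A` one of whose members is `n` satisfies
`T(a, b, a + b) < - η √(log (a + b)) - K / √(log (a + b))` -/
def Good (A η K : ℝ) (n : ℕ) : Prop :=
  ∀ a b : ℕ, 0 < a → 0 < b → Nat.Coprime a b → (a = n ∨ b = n ∨ a + b = n) →
    ((a + b : ℕ) : ℝ) ≤ (n : ℝ) ^ A →
      T a b (a + b) < - η * Real.sqrt (Real.log ((a + b : ℕ) : ℝ)) - K / Real.sqrt (Real.log ((a + b : ℕ) : ℝ))

lemma Fx_eq (η : ℝ) (h0 : 0 ≤ η) (h1 : η < 7 / 9) : Pool.Agent.W221.ABC7.Fx (1 + η) = f η := by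
  unfold Pool.Agent.W221.ABC7.Fx f
  rcases h0.eq_or_lt with h | h
  · subst h
    norm_num
  · rw [if_neg (show ¬ (1 + η ≤ 2 / 3) by linarith), if_neg (show ¬ (1 + η ≤ 1) by linarith)]
    by_cases h2 : η ≤ 1 / 2
    · rw [if_pos (show 1 + η ≤ 3 / 2 by linarith), if_pos h2]
      ring
    · rw [if_neg (show ¬ (1 + η ≤ 3 / 2) by linarith), if_pos (show 1 + η ≤ 16 / 9 by linarith), if_neg h2]
      ring

lemma f_nonneg (η : ℝ) (h0 : 0 ≤ η) : 0 ≤ f η := by
  unfold f
  split_ifs <;> positivity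

lemma rad_pos (n : ℕ) : 0 < rad n :=
  Finset.prod_pos fun _ hp => (Nat.prime_of_mem_primeFactors hp).pos

lemma good_of (A η K : ℝ) (m : ℕ) (h : m ∉ Pool.Agent.Y854.AB.Bad (Real.exp K) (1 + η) A) : Good A η K m := by
  intro a b ha hb hab hmem hht
  have hc2 : 2 ≤ a + b := by omega
  have hc : (1 : ℝ) < ((a + b : ℕ) : ℝ) := by exact_mod_cast (by omega : 1 < a + b)
  have hc0 : (0 : ℝ) < ((a + b : ℕ) : ℝ) := by linarith
  have hl : 0 < Real.log ((a + b : ℕ) : ℝ) := Real.log_pos hc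
  have hs : 0 < Real.sqrt (Real.log ((a + b : ℕ) : ℝ)) := Real.sqrt_pos.mpr hl
  have hr : (0 : ℝ) < (rad (a * b * (a + b)) : ℝ) := by exact_mod_cast rad_pos _
  have hbig : Real.exp K * ((a + b : ℕ) : ℝ) ^ (1 + η) < (rad (a * b * (a + b)) : ℝ) := by
    by_contra hcon
    push Not at hcon
    exact h ⟨a, b, ha, hb, hab, hmem, hht, hcon⟩
  have h1 := Real.log_lt_log (by positivity) hbig
  rw [Real.log_mul (Real.exp_pos K).ne' (Real.rpow_pos_of_pos hc0 _).ne', Real.log_exp,
    Real.log_rpow hc0] at h1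
  unfold T
  rw [Real.log_div hc0.ne' hr.ne', div_lt_iff₀ hs]
  have hss : Real.sqrt (Real.log ((a + b : ℕ) : ℝ)) * Real.sqrt (Real.log ((a + b : ℕ) : ℝ)) =
      Real.log ((a + b : ℕ) : ℝ) := Real.mul_self_sqrt hl.le
  have h2 : (-η * Real.sqrt (Real.log ((a + b : ℕ) : ℝ)) - K / Real.sqrt (Real.log ((a + b : ℕ) : ℝ))) *
      Real.sqrt (Real.log ((a + b : ℕ) : ℝ)) = -η * Real.log ((a + b : ℕ) : ℝ) - K := by
    rw [sub_mul, div_mul_cancel₀ _ hs.ne', mul_assoc, hss]
  rw [h2]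
  linarith

/-- **`T < 0` near the values of multiplicative functions.** Let `g` be multiplicative and positive, of at most polynomial
growth, with `g p ≤ M p` at the large primes, and injective there. Let `G` have steps `≥ a > 0` and growth at most `v^d`. Let
`A ≥ 1`, `0 ≤ η < 7 / 9`, `θ ≥ 0` and `d A f(η) + θ < 1` (for `A = 1`, `η = 0`: `15 d / 28 + θ < 1`). For every `K` and `U` and
all large `N`, for all `m ≤ N` but `N / (log N)^U`, EVERY abc-triple with a member `n`, `|n - G (g m)| ≤ g(m)^θ`, and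
`c ≤ n ^ A` satisfies `T(a, b, c) < - η √(log c) - K / √(log c)`. Euler's function and the sum of the divisors are examples of
such functions `g`, and `α v^d` with `α > 0`, `d ≥ 1` is an example of `G`. -/
theorem result :
    (∀ g : ℕ → ℕ, LM g → ∀ (G : ℕ → ℝ) (d : ℝ), Expanding G d → ∀ A η θ : ℝ, 1 ≤ A → 0 ≤ η → η < 7 / 9 → 0 ≤ θ →
      d * (A * f η) + θ < 1 → ∀ (K : ℝ) (U : ℕ), ∃ N₀ : ℕ, ∀ N : ℕ, N₀ ≤ N →
      ({m : ℕ | 1 ≤ m ∧ m ≤ N ∧ ¬ ∀ n : ℕ, |(n : ℝ) - G (g m)| ≤ (g m : ℝ) ^ θ → Good A η K n}.ncard : ℝ) ≤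
        N / Real.log N ^ U) ∧
    (LM Nat.totient ∧ LM (fun m => ∑ d ∈ m.divisors, d)) ∧
    ∀ α d : ℝ, 0 < α → 1 ≤ d → Expanding (fun v => α * (v : ℝ) ^ d) d := by
  classical
  refine ⟨fun g hg G d hG A η θ hA hη hη1 hθ h1 K U => ?_, ⟨lm_totient, lm_sigma⟩, fun α d hα hd => expanding_pow hα hd⟩
  obtain ⟨N₀, hN₀⟩ := keep_win_nat (Pool.Agent.Y854.AB.Bad (Real.exp K) (1 + η) A) hg hG (s := A * f η) (κ := θ)
    (mul_nonneg (by linarith) (f_nonneg η hη)) hθ h1 (fun ε hε => by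
      obtain ⟨C, hC⟩ := Pool.Agent.Y854.AB.count (Real.exp K) (1 + η) A (by linarith) (by linarith) ε hε
      refine ⟨C, fun X hX => ?_⟩
      have h2 := hC X hX
      rw [Fx_eq η hη hη1] at h2
      convert h2 using 2) U
  refine ⟨N₀, fun N hN => le_trans ?_ (hN₀ N hN)⟩
  have hfin : {m : ℕ | 1 ≤ m ∧ m ≤ N ∧ ∃ n : ℕ, (n = 0 ∨ n ∈ Pool.Agent.Y854.AB.Bad (Real.exp K) (1 + η) A) ∧
      |(n : ℝ) - G (g m)| ≤ (g m : ℝ) ^ θ}.Finite := by
    apply (Set.finite_Icc 1 N).subset
    intro m hm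
    exact ⟨hm.1, hm.2.1⟩
  have hsub : {m : ℕ | 1 ≤ m ∧ m ≤ N ∧ ¬ ∀ n : ℕ, |(n : ℝ) - G (g m)| ≤ (g m : ℝ) ^ θ → Good A η K n} ⊆
      {m : ℕ | 1 ≤ m ∧ m ≤ N ∧ ∃ n : ℕ, (n = 0 ∨ n ∈ Pool.Agent.Y854.AB.Bad (Real.exp K) (1 + η) A) ∧
        |(n : ℝ) - G (g m)| ≤ (g m : ℝ) ^ θ} := by
    rintro m ⟨h2, h3, h4⟩
    push Not at h4
    obtain ⟨n, h5, h6⟩ := h4
    refine ⟨h2, h3, n, Or.inr ?_, h5⟩
    by_contra h7
    exact h6 (good_of A η K n h7)
  exact_mod_cast Set.ncard_le_ncard hsub hfin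

end Pool.Agent.Results.MP_4ab349_nt.MultiplicativeValues
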